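import Pool.Agent.MP_0cee90_lc.H63F.Ram

/-! The input of the Fourier submatrix-vector product on the real RAM. -/

namespace Pool.Agent.MP_d958de_lc.H67

open Pool.Agent.MP_0cee90_lc.H63F

/-- The `i`-th smallest element of `S`, counted from `0` (and `0` if there is none). -/
noncomputable def el (S : Finset ℕ) (i : ℕ) : ℕ := Nat.nth (· ∈ S) i

/-- The initial memory. The natural array `5` holds `d` and then the rows in increasing order, the
natural array `7` holds `m = |C|` and then the columns; the real array `0` holds the real parts and
then the imaginary parts of the coordinates of `v`. Everything else is zero. -/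
noncomputable def input (d : ℕ) (R C : Finset ℕ) (v : ℕ → ℂ) : Mem :=
  ⟨fun k i => if k = 5 then (if i = 0 then d else el R (i - 1))
    else if k = 7 then (if i = 0 then C.card else el C (i - 1)) else 0,
  fun k i => if k = 0 ∧ i < C.card then (v (el C i)).re
    else if k = 0 ∧ i < 2 * C.card then (v (el C (i - C.card))).im else 0⟩

/-- The `i`-th output: real part in the real array `2`, imaginary part in the real array `3`. -/
noncomputable def output (M : Mem) (i : ℕ) : ℂ := ⟨M.R 2 i, M.R 3 i⟩

end Pool.Agent.MP_d958de_lc.H67
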