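import Pool.Agent.MP_d958de_lc.H67.Defs

/-! The inputs of the two programs of the reduction. -/

namespace Pool.Agent.MP_d958de_lc.H67

open Pool.Agent.MP_0cee90_lc.H63F

/-- The memory `input` for the zero vector; after `d` and the rows, the natural array `5` holds
the binary digits of `σ` (the coin tosses). -/
noncomputable def coinInput (d : ℕ) (R C : Finset ℕ) (σ : ℕ) : Mem :=
  ⟨fun k i => if k = 5 ∧ C.card < i then (σ.testBit (i - C.card - 1)).toNat
    else (input d R C 0).N k i, fun _ _ => 0⟩

/-- The natural array `5` holds `d`, the natural array `7` holds `J m` and `m`; the real array `0`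
holds the real parts and then the imaginary parts of the numbers `a k i`, `k < J`, `i < m`.
Everything else is zero. -/
def ansInput (d m J : ℕ) (a : ℕ → ℕ → ℂ) : Mem :=
  ⟨fun k i => if k = 5 ∧ i = 0 then d else if k = 7 ∧ i = 0 then J * m
    else if k = 7 ∧ i = 1 then m else 0,
  fun k i => if k = 0 ∧ i < J * m then (a (i / m) (i % m)).re
    else if k = 0 ∧ i < 2 * (J * m) then (a ((i - J * m) / m) ((i - J * m) % m)).im else 0⟩

end Pool.Agent.MP_d958de_lc.H67
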